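import Mathlib

/-!
MP_222d4b, Q1: there are infinitely many `n` for which the `n × n` Lights Out grid has nullity
exactly two.  We prove that this is the case for every `n = 2 * 3 ^ k - 1` with `k ≥ 1`.
-/

namespace Pool.Agent.Results.MP_222d4b_co.InfinitelyMany

open Polynomial

/-- Two cells are adjacent when they differ by `1` in exactly one coordinate. -/
def Adj {n : ℕ} (c c' : Fin n × Fin n) : Prop :=
  (c.1 = c'.1 ∧ ((c.2 : ℕ) + 1 = c'.2 ∨ (c'.2 : ℕ) + 1 = c.2)) ∨
  (c.2 = c'.2 ∧ ((c.1 : ℕ) + 1 = c'.1 ∨ (c'.1 : ℕ) + 1 = c.1))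

open Classical in
/-- The Lights Out matrix `A_n` over `F_2`. -/
noncomputable def A (n : ℕ) : Matrix (Fin n × Fin n) (Fin n × Fin n) (ZMod 2) :=
  Matrix.of fun c c' => if c = c' ∨ Adj c c' then 1 else 0

/-- The kernel of `A_n`. -/
noncomputable def kerA (n : ℕ) : Submodule (ZMod 2) (Fin n × Fin n → ZMod 2) :=
  LinearMap.ker (A n).mulVecLin

/-- The nullity `d(n)`. -/
noncomputable def d (n : ℕ) : ℕ := Module.finrank (ZMod 2) (kerA n)

/-! ### The key lemma in an algebraically closed field of characteristic two -/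

section Field

variable {K : Type*} [Field K] [CharP K 2]

def T (x : K) : K := x ^ 3 + x

lemma two_zero : (2 : K) = 0 := by
  have := CharP.cast_eq_zero K 2
  simpa using this

lemma T_add_inv (w : K) (hw : w ≠ 0) : T (w + w⁻¹) = w ^ 3 + (w⁻¹) ^ 3 := by
  have h : w * w⁻¹ = 1 := mul_inv_cancel₀ hw
  have : T (w + w⁻¹) = w ^ 3 + (w⁻¹) ^ 3 + 3 * (w * w⁻¹) * (w + w⁻¹) + (w + w⁻¹) := by
    rw [T]; ring
  rw [this, h]
  linear_combination (2 * w + 2 * w⁻¹) * (two_zero (K := K))

lemma T_iter (u : K) (hu : u ≠ 0) (j : ℕ) :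
    T^[j] (u + u⁻¹) = u ^ 3 ^ j + (u⁻¹) ^ 3 ^ j := by
  induction j with
  | zero => simp
  | succ j ih =>
    rw [Function.iterate_succ_apply', ih, inv_pow, T_add_inv _ (pow_ne_zero _ hu), ← pow_mul,
      ← pow_succ, ← inv_pow, ← pow_mul, ← pow_succ]

lemma T_iter_zero (j : ℕ) : T^[j] (0 : K) = 0 := by
  induction j with
  | zero => rfl
  | succ j ih => rw [Function.iterate_succ_apply', ih]; simp [T]

lemma T_iter_one (j : ℕ) (hj : 1 ≤ j) : T^[j] (1 : K) = 0 := by
  obtain ⟨i, rfl⟩ : ∃ i, j = i + 1 := ⟨j - 1, by omega⟩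
  rw [Function.iterate_succ_apply, show T (1 : K) = 0 from by
    rw [T]; linear_combination (two_zero (K := K)), T_iter_zero]

lemma four_pow (a : ℕ) : ∃ c : ℕ, 4 ^ 3 ^ a = 1 + 3 ^ (a + 1) * c ∧ c % 3 ≠ 0 := by
  induction a with
  | zero => exact ⟨1, by norm_num, by norm_num⟩
  | succ a ih =>
    obtain ⟨c, h1, h2⟩ := ih
    refine ⟨c + 3 * (3 ^ a * c ^ 2 + 3 ^ (2 * a) * c ^ 3), ?_, ?_⟩
    · rw [pow_succ 3 a, pow_mul, h1]
      ring
    · omega

/-- trace-like sum -/
lemma trace_zero (u : K) (hu : u ≠ 0) (j : ℕ) (hj : 1 ≤ j)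
    (h : u ^ 3 ^ j + (u⁻¹) ^ 3 ^ j = 1) (q : ℕ) (hq : q = 4 ^ 3 ^ (j - 1)) :
    u + u ^ q + (u ^ q) ^ q = 0 := by
  obtain ⟨c, hc, hc3⟩ := four_pow (j - 1)
  rw [← hq, Nat.sub_add_cancel hj] at hc
  set t := u ^ 3 ^ j with ht
  have ht0 : t ≠ 0 := pow_ne_zero _ hu
  have h1 : t ^ 2 + t + 1 = 0 := by
    rw [inv_pow, ← ht] at h
    have h' : t * (t + t⁻¹) = t * 1 := by rw [h]
    rw [mul_add, mul_inv_cancel₀ ht0] at h'
    linear_combination h' + t * (two_zero (K := K))
  have h3 : t ^ 3 = 1 := by linear_combination (t - 1) * h1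
  set s := t ^ c with hs
  have hs1 : s ^ 2 + s + 1 = 0 := by
    have hc' : c = 3 * (c / 3) + c % 3 := (Nat.div_add_mod c 3).symm
    have h4 : s = t ^ (c % 3) := by
      rw [hs]
      conv_lhs => rw [hc', pow_add, pow_mul, h3, one_pow, one_mul]
    have h5 : c % 3 = 1 ∨ c % 3 = 2 := by omega
    rcases h5 with h5 | h5
    · rw [h4, h5, pow_one]; exact h1
    · rw [h4, h5]
      linear_combination (t ^ 2 - t + 1) * h1
  have hs3 : s ^ 3 = 1 := by linear_combination (s - 1) * hs1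
  have huq : u ^ q = u * s := by
    rw [hc, pow_add, pow_one, pow_mul]
  have hsq : s ^ q = s := by
    rw [hc, pow_add, pow_one, show 3 ^ j * c = 3 * (3 ^ (j - 1) * c) from by
      rw [← mul_assoc, ← pow_succ', Nat.sub_add_cancel hj], pow_mul, hs3, one_pow, mul_one]
  rw [huq, mul_pow, huq, hsq]
  linear_combination u * hs1

lemma key_le [IsAlgClosed K] (x : K) (i j : ℕ) (hi : 1 ≤ i) (hij : i ≤ j)
    (h1 : T^[i] x = 1) (h2 : T^[j] (x + 1) = 1) : False := by
  have hex : ∀ y : K, ∃ u : K, u ≠ 0 ∧ y = u + u⁻¹ := by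
    intro y
    obtain ⟨u, hu⟩ := IsAlgClosed.exists_root (X ^ 2 + C y * X + 1 : K[X]) (by
      have : (X ^ 2 + C y * X + 1 : K[X]).degree = 2 := by compute_degree!
      rw [this]; norm_num)
    simp only [IsRoot.def, eval_add, eval_pow, eval_X, eval_mul, eval_C, eval_one] at hu
    have hu0 : u ≠ 0 := by
      rintro rfl
      simp at hu
    refine ⟨u, hu0, ?_⟩
    have : u * y = u * (u + u⁻¹) := by
      rw [mul_add, mul_inv_cancel₀ hu0]
      linear_combination hu - (u ^ 2 + 1) * (two_zero (K := K))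
    exact mul_left_cancel₀ hu0 this
  obtain ⟨u, hu0, hu⟩ := hex (x + 1)
  obtain ⟨w, hw0, hw⟩ := hex x
  have hj : 1 ≤ j := hi.trans hij
  rw [hu, T_iter u hu0] at h2
  have h1' := h1
  rw [hw, T_iter w hw0] at h1
  obtain ⟨q, hq⟩ : ∃ q : ℕ, q = 4 ^ 3 ^ (j - 1) := ⟨_, rfl⟩
  have hadd : ∀ a b : K, (a + b) ^ q = a ^ q + b ^ q := by
    intro a b
    rw [hq, show (4 : ℕ) = 2 ^ 2 from by norm_num, ← pow_mul]
    exact add_pow_char_pow a b 2 _
  have hT1 := trace_zero u hu0 j hj h2 q hq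
  have hT2 := trace_zero u⁻¹ (inv_ne_zero hu0) j hj (by rw [inv_inv, add_comm]; exact h2) q hq
  have hS : x + x ^ q + (x ^ q) ^ q = 1 := by
    have hx : x = u + u⁻¹ + 1 := by
      rw [← hu]; linear_combination - (two_zero (K := K))
    rw [hx, hadd, hadd, hadd, hadd, one_pow, one_pow]
    linear_combination hT1 + hT2 + (two_zero (K := K))
  rcases Nat.lt_or_ge i j with hlt | hge
  · -- `w ^ q = w`
    have hw1 : w ^ 3 ^ (i + 1) = 1 := by
      set t := w ^ 3 ^ i with ht
      have ht0 : t ≠ 0 := pow_ne_zero _ hw0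
      have h1t : t ^ 2 + t + 1 = 0 := by
        rw [inv_pow, ← ht] at h1
        have h' : t * (t + t⁻¹) = t * 1 := by rw [h1]
        rw [mul_add, mul_inv_cancel₀ ht0] at h'
        linear_combination h' + t * (two_zero (K := K))
      rw [pow_succ, pow_mul, ← ht]
      linear_combination (t - 1) * h1t
    have hwq : w ^ q = w := by
      obtain ⟨c, hc, -⟩ := four_pow (j - 1)
      rw [← hq, Nat.sub_add_cancel hj] at hc
      obtain ⟨m, hm⟩ := Nat.exists_eq_add_of_lt hlt
      rw [hc, pow_add, pow_one, hm, show 3 ^ (i + m + 1) * c = 3 ^ (i + 1) * (3 ^ m * c) from by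
        ring, pow_mul, hw1, one_pow, mul_one]
    have hxq : x ^ q = x := by
      rw [hw, hadd, inv_pow, hwq]
    rw [hxq, hxq] at hS
    have hx1 : x = 1 := by linear_combination hS - x * (two_zero (K := K))
    rw [hx1, T_iter_one i hi] at h1'
    exact zero_ne_one h1'
  · have hij' : i = j := le_antisymm hij hge
    subst hij'
    have hT3 := trace_zero w hw0 i hi h1 q hq
    have hT4 := trace_zero w⁻¹ (inv_ne_zero hw0) i hi (by rw [inv_inv, add_comm]; exact h1) q hq
    have : x + x ^ q + (x ^ q) ^ q = 0 := by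
      rw [hw, hadd, hadd]
      linear_combination hT3 + hT4
    rw [this] at hS
    exact zero_ne_one hS

lemma key [IsAlgClosed K] (x : K) (i j : ℕ) (hi : 1 ≤ i) (hj : 1 ≤ j)
    (h1 : T^[i] x = 1) (h2 : T^[j] (x + 1) = 1) : False := by
  rcases le_total i j with h | h
  · exact key_le x i j hi h h1 h2
  · refine key_le (x + 1) j i hj h h2 ?_
    rw [show x + 1 + 1 = x from by linear_combination (two_zero (K := K))]
    exact h1

end Field

/-! ### Polynomials -/

instance : Fact (Nat.Prime 2) := ⟨Nat.prime_two⟩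

noncomputable def Dp : ℕ → (ZMod 2)[X]
  | 0 => X
  | j + 1 => Dp j ^ 3 + Dp j

/-- Fibonacci polynomials -/
noncomputable def f : ℕ → (ZMod 2)[X]
  | 0 => 0
  | 1 => 1
  | j + 2 => X * f (j + 1) + f j

lemma poly_two : (2 : (ZMod 2)[X]) = 0 := by
  have := CharP.cast_eq_zero (ZMod 2)[X] 2
  simpa using this

lemma Dp_prod (k : ℕ) : Dp k = X * ∏ j ∈ Finset.range k, (Dp j + 1) ^ 2 := by
  induction k with
  | zero => simp [Dp]
  | succ k ih =>
    rw [Finset.prod_range_succ, ← mul_assoc, ← ih, Dp]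
    linear_combination - Dp k ^ 2 * poly_two

section AC

variable {K : Type*} [Field K] [CharP K 2] [Algebra (ZMod 2) K]

lemma aeval_Dp (x : K) (j : ℕ) : aeval x (Dp j) = T^[j] x := by
  induction j with
  | zero => simp [Dp]
  | succ j ih => rw [Dp, map_add, map_pow, ih, Function.iterate_succ_apply', T]

lemma aeval_f (u : K) (hu : u ≠ 0) (j : ℕ) :
    (u + u⁻¹) * aeval (u + u⁻¹) (f j) = u ^ j + (u⁻¹) ^ j ∧
    (u + u⁻¹) * aeval (u + u⁻¹) (f (j + 1)) = u ^ (j + 1) + (u⁻¹) ^ (j + 1) := by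
  induction j with
  | zero =>
    simp only [f, map_zero, mul_zero, map_one, mul_one, pow_zero, zero_add, pow_one, and_true]
    linear_combination - (two_zero (K := K))
  | succ j ih =>
    refine ⟨ih.2, ?_⟩
    rw [f, map_add, map_mul, aeval_X, mul_add, ← mul_assoc, mul_comm (u + u⁻¹) (u + u⁻¹),
      mul_assoc, ih.1, ih.2]
    have h : u * u⁻¹ = 1 := mul_inv_cancel₀ hu
    have e1 : u ^ (j + 1) * u⁻¹ = u ^ j := by
      rw [pow_succ, mul_assoc, h, mul_one]
    have e2 : (u⁻¹) ^ (j + 1) * u = (u⁻¹) ^ j := by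
      rw [pow_succ, mul_assoc, mul_comm u⁻¹ u, h, mul_one]
    linear_combination e1 + e2 + (u ^ j + u⁻¹ ^ j) * (two_zero (K := K))

lemma exists_inv [IsAlgClosed K] (y : K) : ∃ u : K, u ≠ 0 ∧ y = u + u⁻¹ := by
  obtain ⟨u, hu⟩ := IsAlgClosed.exists_root (X ^ 2 + C y * X + 1 : K[X]) (by
    have : (X ^ 2 + C y * X + 1 : K[X]).degree = 2 := by compute_degree!
    rw [this]; norm_num)
  simp only [IsRoot.def, eval_add, eval_pow, eval_X, eval_mul, eval_C, eval_one] at hu
  have hu0 : u ≠ 0 := by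
    rintro rfl
    simp at hu
  refine ⟨u, hu0, ?_⟩
  have : u * y = u * (u + u⁻¹) := by
    rw [mul_add, mul_inv_cancel₀ hu0]
    linear_combination hu - (u ^ 2 + 1) * (two_zero (K := K))
  exact mul_left_cancel₀ hu0 this

end AC

lemma X_mul_f (k : ℕ) : X * f (2 * 3 ^ k) = Dp k ^ 2 := by
  let K := AlgebraicClosure (ZMod 2)
  haveI : CharP K 2 := charP_of_injective_algebraMap (algebraMap (ZMod 2) K).injective 2
  haveI : Infinite K := IsAlgClosed.instInfinite
  have hinj : Function.Injective (Polynomial.map (algebraMap (ZMod 2) K)) :=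
    Polynomial.map_injective _ (algebraMap (ZMod 2) K).injective
  apply hinj
  apply Polynomial.funext
  intro x
  rw [eval_map_algebraMap, eval_map_algebraMap]
  obtain ⟨u, hu, rfl⟩ := exists_inv x
  rw [map_mul, aeval_X, (aeval_f u hu _).1, map_pow, aeval_Dp, T_iter u hu]
  have h : u ^ 3 ^ k * u⁻¹ ^ 3 ^ k = 1 := by
    rw [← mul_pow, mul_inv_cancel₀ hu, one_pow]
  have e1 : u ^ (2 * 3 ^ k) = (u ^ 3 ^ k) ^ 2 := by rw [← pow_mul, mul_comm]
  have e2 : u⁻¹ ^ (2 * 3 ^ k) = (u⁻¹ ^ 3 ^ k) ^ 2 := by rw [← pow_mul, mul_comm]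
  rw [e1, e2]
  linear_combination - (u ^ 3 ^ k * u⁻¹ ^ 3 ^ k) * (two_zero (K := K))

/-- `F = f_{2*3^k} = X (X+1)^4 H^4` -/
noncomputable def H (k : ℕ) : (ZMod 2)[X] := ∏ j ∈ Finset.range k, (Dp (j + 1) + 1)

lemma f_eq (k : ℕ) : f (2 * 3 ^ (k + 1)) = X * (X + 1) ^ 4 * H k ^ 4 := by
  have h := X_mul_f (k + 1)
  rw [Dp_prod, Finset.prod_range_succ', show Dp 0 = X from rfl, Finset.prod_pow] at h
  have hX : (X : (ZMod 2)[X]) ≠ 0 := X_ne_zero
  apply mul_left_cancel₀ hX
  rw [h, H]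
  ring

lemma coprime_PQ (k : ℕ) :
    IsCoprime ((X + 1) ^ 3 * H k ^ 4 : (ZMod 2)[X])
      (((X + 1) ^ 3 * H k ^ 4 : (ZMod 2)[X]).comp (X + 1)) := by
  let K := AlgebraicClosure (ZMod 2)
  haveI : CharP K 2 := charP_of_injective_algebraMap (algebraMap (ZMod 2) K).injective 2
  rw [Polynomial.isCoprime_iff_aeval_ne_zero_of_isAlgClosed (ZMod 2) K]
  intro x
  by_contra hcon
  rw [not_or, not_not, not_not] at hcon
  obtain ⟨h1, h2⟩ := hcon
  rw [aeval_comp] at h2
  have hroot : ∀ y : K, aeval y ((X + 1) ^ 3 * H k ^ 4 : (ZMod 2)[X]) = 0 →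
      y = 1 ∨ ∃ j, 1 ≤ j ∧ T^[j] y = 1 := by
    intro y hy
    rw [map_mul, mul_eq_zero, map_pow, map_pow] at hy
    rcases hy with hy | hy
    · left
      have := pow_eq_zero_iff (by norm_num : (3 : ℕ) ≠ 0) |>.mp hy
      rw [map_add, aeval_X, map_one] at this
      linear_combination this - (two_zero (K := K))
    · right
      have := pow_eq_zero_iff (by norm_num : (4 : ℕ) ≠ 0) |>.mp hy
      rw [H, map_prod, Finset.prod_eq_zero_iff] at this
      obtain ⟨j, -, hj⟩ := this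
      refine ⟨j + 1, by omega, ?_⟩
      rw [map_add, aeval_Dp, map_one] at hj
      linear_combination hj - (two_zero (K := K))
  have e : aeval x (X + 1 : (ZMod 2)[X]) = x + 1 := by simp
  rw [e] at h2
  rcases hroot x h1 with rfl | ⟨i, hi, hi'⟩
  · rw [show (1 : K) + 1 = 0 from by linear_combination (two_zero (K := K))] at h2
    rcases hroot 0 h2 with h | ⟨j, -, hj⟩
    · exact zero_ne_one h
    · rw [T_iter_zero] at hj
      exact zero_ne_one hj
  · rcases hroot (x + 1) h2 with h | ⟨j, hj, hj'⟩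
    · have : x = 0 := by linear_combination h
      rw [this, T_iter_zero] at hi'
      exact zero_ne_one hi'
    · exact key x i j hi hj hi' hj'

lemma bezout (k : ℕ) : ∃ a b : (ZMod 2)[X],
    a * f (2 * 3 ^ (k + 1)) + b * (f (2 * 3 ^ (k + 1))).comp (X + 1) = X * (X + 1) := by
  obtain ⟨a, b, h⟩ := coprime_PQ k
  refine ⟨a, b, ?_⟩
  have h1 : (f (2 * 3 ^ (k + 1))).comp (X + 1) =
      X * (X + 1) * ((X + 1) ^ 3 * H k ^ 4 : (ZMod 2)[X]).comp (X + 1) := by
    have : (X + 1 + 1 : (ZMod 2)[X]) = X := by linear_combination poly_two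
    rw [f_eq]
    simp only [mul_comp, pow_comp, add_comp, X_comp, one_comp]
    rw [this]
    ring
  rw [h1, f_eq]
  linear_combination X * (X + 1) * h

/-! ### The path matrix -/

/-- adjacency matrix of the path -/
def B (n : ℕ) : Matrix (Fin n) (Fin n) (ZMod 2) :=
  Matrix.of fun i j => if (i : ℕ) + 1 = j ∨ (j : ℕ) + 1 = i then 1 else 0

lemma B_symm (n : ℕ) : (B n).transpose = B n := by
  ext i j
  simp only [B, Matrix.transpose_apply, Matrix.of_apply]
  congr 1
  exact propext or_comm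

/-- extension by zero, indices shifted by one -/
def ext {n : ℕ} (y : Fin n → ZMod 2) (j : ℕ) : ZMod 2 :=
  if h : 1 ≤ j ∧ j ≤ n then y ⟨j - 1, by omega⟩ else 0

lemma sum_single {n : ℕ} (y : Fin n → ZMod 2) (m : ℕ) :
    ∑ l : Fin n, (if (l : ℕ) + 1 = m then y l else 0) = ext y m := by
  rw [ext]
  split_ifs with h
  · rw [Finset.sum_eq_single ⟨m - 1, by omega⟩]
    · rw [if_pos (by simp; omega)]
    · intro b _ hb
      rw [if_neg]
      intro hb'
      apply hb
      ext
      simp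
      omega
    · intro h'; exact absurd (Finset.mem_univ _) h'
  · apply Finset.sum_eq_zero
    intro l _
    rw [if_neg]
    intro hl
    have := l.isLt
    omega

lemma B_mulVec {n : ℕ} (y : Fin n → ZMod 2) (i : Fin n) :
    (B n).mulVec y i = ext y i + ext y (i + 2) := by
  rw [← sum_single y i, ← sum_single y (i + 2), ← Finset.sum_add_distrib]
  simp only [Matrix.mulVec, dotProduct, B, Matrix.of_apply]
  refine Finset.sum_congr rfl fun l _ => ?_
  by_cases h1 : (l : ℕ) + 1 = i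
  · rw [if_pos (Or.inr h1), if_pos h1, if_neg (by omega)]; simp
  · by_cases h2 : (i : ℕ) + 1 = l
    · rw [if_pos (Or.inl h2), if_neg h1, if_pos (by omega)]; simp
    · rw [if_neg (by tauto), if_neg h1, if_neg (by omega)]; simp

lemma ext_apply {n : ℕ} (y : Fin n → ZMod 2) (i : Fin n) : ext y (i + 1) = y i := by
  rw [ext, dif_pos ⟨by omega, by have := i.isLt; omega⟩]
  rfl

lemma ext_zero {n : ℕ} (y : Fin n → ZMod 2) : ext y 0 = 0 := by
  rw [ext, dif_neg (by omega)]

lemma ext_big {n : ℕ} (y : Fin n → ZMod 2) (m : ℕ) (h : n < m) : ext y m = 0 := by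
  rw [ext, dif_neg (by omega)]

lemma z2_add_self (a : ZMod 2) : a + a = 0 := by revert a; decide

lemma z2_eq_of_add {a b : ZMod 2} (h : a + b = 0) : a = b := by revert a b; decide

/-- `e_j` as a vector (zero for `j = 0` and `j > n`) -/
def E (n j : ℕ) : Fin n → ZMod 2 := fun i => if (i : ℕ) + 1 = j then 1 else 0

lemma ext_E (n j m : ℕ) (hm1 : 1 ≤ m) (hm : m ≤ n) : ext (E n j) m = if m = j then 1 else 0 := by
  rw [ext, dif_pos ⟨hm1, hm⟩, E]
  simp only
  congr 1
  apply propext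
  omega

lemma B_mulVec_E (n j : ℕ) (hj : j + 1 ≤ n) :
    (B n).mulVec (E n (j + 1)) = E n j + E n (j + 2) := by
  ext i
  rw [B_mulVec, Pi.add_apply]
  have hi := i.isLt
  have h1 : ext (E n (j + 1)) i = E n (j + 2) i := by
    by_cases h0 : (i : ℕ) = 0
    · rw [h0, ext_zero, E, if_neg (by omega)]
    · rw [ext_E _ _ _ (by omega) (by omega), E]
      congr 1
      apply propext
      omega
  have h2 : ext (E n (j + 1)) (i + 2) = E n j i := by
    by_cases h0 : (i : ℕ) + 2 ≤ n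
    · rw [ext_E _ _ _ (by omega) h0, E]
      congr 1
      apply propext
      omega
    · rw [ext_big _ _ (by omega), E, if_neg (by omega)]
  rw [h1, h2, add_comm]

lemma aeval_f_E (n : ℕ) (j : ℕ) (hj : j + 1 ≤ n + 1) :
    (aeval (B n) (f j)).mulVec (E n 1) = E n j ∧
    (aeval (B n) (f (j + 1))).mulVec (E n 1) = E n (j + 1) := by
  induction j with
  | zero =>
    constructor
    · rw [f, map_zero, Matrix.zero_mulVec]
      ext i; simp [E]
    · rw [f, map_one, Matrix.one_mulVec]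
  | succ j ih =>
    obtain ⟨h1, h2⟩ := ih (by omega)
    refine ⟨h2, ?_⟩
    rw [f, map_add, map_mul, aeval_X, Matrix.add_mulVec, ← Matrix.mulVec_mulVec, h2, h1,
      B_mulVec_E n j (by omega)]
    ext i
    simp only [Pi.add_apply]
    rw [add_right_comm, z2_add_self, zero_add]

lemma aeval_f_zero (n : ℕ) (hn : 1 ≤ n) : aeval (B n) (f (n + 1)) = 0 := by
  have h0 : (aeval (B n) (f (n + 1))).mulVec (E n 1) = 0 := by
    rw [(aeval_f_E n n le_rfl).2]
    ext i
    have := i.isLt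
    rw [E, if_neg (by omega)]; rfl
  have h1 : ∀ j, j ≤ n → (aeval (B n) (f (n + 1))).mulVec (E n j) = 0 := by
    intro j hj
    rw [← (aeval_f_E n j (by omega)).1, Matrix.mulVec_mulVec, ← map_mul, mul_comm, map_mul,
      ← Matrix.mulVec_mulVec, h0, Matrix.mulVec_zero]
  ext i j
  have h2 := congrFun (h1 (j + 1) j.isLt) i
  have h3 : (aeval (B n) (f (n + 1))).mulVec (E n (j + 1)) i = aeval (B n) (f (n + 1)) i j := by
    simp only [Matrix.mulVec, dotProduct]
    rw [Finset.sum_eq_single j]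
    · rw [E, if_pos rfl, mul_one]
    · intro b _ hb
      rw [E, if_neg (by intro h; apply hb; ext; omega), mul_zero]
    · intro h'; exact absurd (Finset.mem_univ _) h'
  rw [← h3, h2]; rfl

/-- vectors killed by `B` -/
lemma kerB {n : ℕ} (hn : 1 ≤ n) (y : Fin n → ZMod 2) (h : (B n).mulVec y = 0) (i : Fin n) :
    y i = if (i : ℕ) % 2 = 0 then y ⟨0, hn⟩ else 0 := by
  have h1 : ∀ j, j < n → ext y (j + 2) = ext y j := by
    intro j hj
    have := congrFun h ⟨j, hj⟩
    rw [B_mulVec] at this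
    exact (z2_eq_of_add this).symm
  have h2 : ∀ j, j ≤ n → ext y j = if j % 2 = 1 then y ⟨0, hn⟩ else 0 := by
    intro j
    induction j using Nat.strong_induction_on with
    | _ j ih =>
      intro hj
      rcases j with _ | _ | j
      · rw [ext_zero]; simp
      · rw [if_pos rfl, ← ext_apply y ⟨0, hn⟩]
      · rw [h1 j (by omega), ih j (by omega) (by omega)]
        congr 1
        apply propext
        omega
  rw [← ext_apply y i, h2 _ i.isLt]
  congr 1
  apply propext
  omega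

/-- vectors killed by `B + 1` -/
lemma kerB1 {n : ℕ} (hn : 1 ≤ n) (y : Fin n → ZMod 2) (h : (B n).mulVec y = y) (i : Fin n) :
    y i = if (i : ℕ) % 3 = 2 then 0 else y ⟨0, hn⟩ := by
  have h1 : ∀ j, j < n → ext y (j + 2) = ext y (j + 1) + ext y j := by
    intro j hj
    have := congrFun h ⟨j, hj⟩
    rw [B_mulVec] at this
    rw [show ext y (j + 1) = y ⟨j, hj⟩ from ext_apply y ⟨j, hj⟩, ← this]
    simp only
    rw [add_right_comm, z2_add_self, zero_add]
  have h2 : ∀ j, j ≤ n → ext y j = if j % 3 = 0 then 0 else y ⟨0, hn⟩ := by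
    intro j
    induction j using Nat.strong_induction_on with
    | _ j ih =>
      intro hj
      rcases j with _ | _ | j
      · rw [ext_zero]; simp
      · rw [if_neg (by norm_num), ← ext_apply y ⟨0, hn⟩]
      · rw [h1 j (by omega), ih j (by omega) (by omega), ih (j + 1) (by omega) (by omega)]
        have h3 : j % 3 = 0 ∨ j % 3 = 1 ∨ j % 3 = 2 := by omega
        rcases h3 with h3 | h3 | h3
        · rw [if_neg (by omega), if_pos (by omega), if_neg (by omega), add_zero]
        · rw [if_neg (by omega), if_neg (by omega), if_pos (by omega), z2_add_self]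
        · rw [if_pos (by omega), if_neg (by omega), if_neg (by omega), zero_add]
  rw [← ext_apply y i, h2 _ i.isLt]
  congr 1
  apply propext
  omega

/-! ### The kernel of the Lights Out matrix -/

lemma B_cond {n : ℕ} (i j : Fin n) :
    B n i j = if (i : ℕ) + 1 = j ∨ (j : ℕ) + 1 = i then 1 else 0 := rfl

lemma A_entry {n : ℕ} (c c' : Fin n × Fin n) :
    A n c c' = (if c = c' then 1 else 0) + (if c.2 = c'.2 then B n c.1 c'.1 else 0) +
      (if c.1 = c'.1 then B n c'.2 c.2 else 0) := by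
  obtain ⟨a, b⟩ := c
  obtain ⟨a', b'⟩ := c'
  simp only [A, Adj, Matrix.of_apply, B_cond, Prod.mk.injEq]
  by_cases h1 : a = a'
  · subst h1
    by_cases h2 : b = b'
    · subst h2
      simp
    · by_cases h3 : (b : ℕ) + 1 = b' ∨ (b' : ℕ) + 1 = b
      · simp [h2, h3, or_comm]
      · simp [h2, h3, or_comm]
  · by_cases h2 : b = b'
    · subst h2
      by_cases h3 : (a : ℕ) + 1 = a' ∨ (a' : ℕ) + 1 = a
      · simp [h1, h3]
      · simp [h1, h3]
    · simp [h1, h2]

lemma A_mulVec {n : ℕ} (X : Fin n × Fin n → ZMod 2) (i j : Fin n) :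
    (A n).mulVec X (i, j) = X (i, j) + (B n * Matrix.of fun a b => X (a, b)) i j +
      ((Matrix.of fun a b => X (a, b)) * B n) i j := by
  simp only [Matrix.mulVec, dotProduct, A_entry, add_mul, Finset.sum_add_distrib,
    Matrix.mul_apply, Matrix.of_apply]
  congr 1
  · congr 1
    · simp
    · rw [Fintype.sum_prod_type]
      refine Finset.sum_congr rfl fun a _ => ?_
      simp
  · rw [Fintype.sum_prod_type]
    rw [Finset.sum_eq_single i]
    · refine Finset.sum_congr rfl fun b _ => ?_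
      simp [mul_comm]
    · intro b _ hb
      apply Finset.sum_eq_zero
      intro c _
      rw [if_neg (fun h => hb h.symm), zero_mul]
    · intro h'; exact absurd (Finset.mem_univ _) h'

lemma mat_add_self {n : ℕ} (M : Matrix (Fin n) (Fin n) (ZMod 2)) : M + M = 0 := by
  ext i j
  exact z2_add_self _

lemma semiconj {n : ℕ} (X : Matrix (Fin n) (Fin n) (ZMod 2)) (h : (B n + 1) * X = X * B n)
    (p : (ZMod 2)[X]) : aeval (B n + 1) p * X = X * aeval (B n) p := by
  have h' : SemiconjBy X (B n) (B n + 1) := h.symm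
  induction p using Polynomial.induction_on' with
  | add p q hp hq => rw [map_add, map_add, add_mul, mul_add, hp, hq]
  | monomial m a =>
    rw [aeval_monomial, aeval_monomial, mul_assoc, ← (h'.pow_right m).eq,
      ← mul_assoc, ← mul_assoc, Algebra.commutes]

def E1 (n : ℕ) : Fin n × Fin n → ZMod 2 :=
  fun c => if (c.1 : ℕ) % 2 = 0 ∧ (c.2 : ℕ) % 3 ≠ 2 then 1 else 0

def E2 (n : ℕ) : Fin n × Fin n → ZMod 2 :=
  fun c => if (c.1 : ℕ) % 3 ≠ 2 ∧ (c.2 : ℕ) % 2 = 0 then 1 else 0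

lemma mulVec_of_mul {n : ℕ} (M : Matrix (Fin n) (Fin n) (ZMod 2)) (j : Fin n) :
    (B n).mulVec (fun i => M i j) = fun i => (B n * M) i j := by
  ext i
  rw [Matrix.mul_apply]
  rfl

lemma mulVec_of_mul' {n : ℕ} (M : Matrix (Fin n) (Fin n) (ZMod 2)) (i : Fin n) :
    (B n).mulVec (fun j => M i j) = fun j => (M * B n) i j := by
  ext j
  rw [Matrix.mul_apply, Matrix.mulVec, dotProduct]
  refine Finset.sum_congr rfl fun l _ => ?_
  rw [mul_comm]
  congr 1
  have := congrFun (congrFun (B_symm n) j) l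
  rw [Matrix.transpose_apply] at this
  exact this.symm

lemma rank_one {n : ℕ} (hn : 1 ≤ n) (Y : Matrix (Fin n) (Fin n) (ZMod 2)) (h1 : B n * Y = 0)
    (h2 : Y * B n = Y) (i j : Fin n) :
    Y i j = if (i : ℕ) % 2 = 0 ∧ (j : ℕ) % 3 ≠ 2 then Y ⟨0, hn⟩ ⟨0, hn⟩ else 0 := by
  have e1 : Y i j = if (i : ℕ) % 2 = 0 then Y ⟨0, hn⟩ j else 0 :=
    kerB hn (fun i => Y i j) (by rw [mulVec_of_mul, h1]; rfl) i
  have e2 : Y ⟨0, hn⟩ j = if (j : ℕ) % 3 = 2 then 0 else Y ⟨0, hn⟩ ⟨0, hn⟩ :=
    kerB1 hn (fun j => Y ⟨0, hn⟩ j) (by rw [mulVec_of_mul', h2]) j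
  rw [e1, e2]
  by_cases h3 : (i : ℕ) % 2 = 0
  · by_cases h4 : (j : ℕ) % 3 = 2
    · simp [h3, h4]
    · simp [h3, h4]
  · simp [h3]

lemma z2_a {x y z : ZMod 2} (h : x + y + z = 0) : y + x = z := by
  revert x y z; decide

lemma z2_b {x y : ZMod 2} (h : x + y = 0) : x = y := by
  revert x y; decide

lemma z2_c {x y : ZMod 2} : x + y + y = x := by
  revert x y; decide

lemma ker_eq (k : ℕ) (n : ℕ) (hn : n + 1 = 2 * 3 ^ (k + 1)) (X : Fin n × Fin n → ZMod 2)
    (h : (A n).mulVec X = 0) : ∃ a b : ZMod 2, X = a • E1 n + b • E2 n := by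
  have hn1 : 1 ≤ n := by
    have : 1 ≤ 3 ^ (k + 1) := Nat.one_le_pow _ _ (by norm_num)
    omega
  set M : Matrix (Fin n) (Fin n) (ZMod 2) := Matrix.of fun a b => X (a, b) with hM
  have h1 : (B n + 1) * M = M * B n := by
    rw [add_mul, one_mul]
    ext i j
    have := congrFun h (i, j)
    rw [A_mulVec] at this
    exact z2_a this
  have hF : aeval (B n) (f (2 * 3 ^ (k + 1))) = 0 := by
    rw [← hn]; exact aeval_f_zero n hn1
  have e1 : aeval (B n) ((f (2 * 3 ^ (k + 1))).comp (Polynomial.X + 1)) * M = 0 := by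
    rw [aeval_comp, map_add, aeval_X, map_one, semiconj M h1, hF, mul_zero]
  have e2 : B n * (B n + 1) * M = 0 := by
    obtain ⟨a, b, hab⟩ := bezout k
    have e3 : aeval (B n) (Polynomial.X * (Polynomial.X + 1) : (ZMod 2)[X]) = B n * (B n + 1) := by
      rw [map_mul, map_add, aeval_X, map_one]
    rw [← e3, ← hab, map_add, map_mul, map_mul, hF, mul_zero, zero_add, mul_assoc, e1, mul_zero]
  have e4 : M * (B n * (B n + 1)) = 0 := by
    have e3 : aeval (B n) (Polynomial.X * (Polynomial.X + 1) : (ZMod 2)[X]) = B n * (B n + 1) := by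
      rw [map_mul, map_add, aeval_X, map_one]
    have e5 : aeval (B n + 1) (Polynomial.X * (Polynomial.X + 1) : (ZMod 2)[X])
        = B n * (B n + 1) := by
      rw [map_mul, map_add, aeval_X, map_one]
      have : B n + 1 + 1 = B n := by
        rw [add_assoc, mat_add_self, add_zero]
      rw [this]
      noncomm_ring
    rw [← e3, ← semiconj M h1, e5, e2]
  -- the two rank one pieces
  have hY1 : B n * (M * B n) = 0 := by rw [← h1, ← mul_assoc, e2]
  have hY2 : (M * B n) * B n = M * B n := by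
    have : M * B n * B n + M * B n = 0 := by
      rw [← e4]; noncomm_ring
    ext i j
    exact z2_b (congrFun (congrFun this i) j)
  have hBM : B n * M = M * B n + M := by
    have : B n * M + M = M * B n := by rw [← h1, add_mul, one_mul]
    rw [← this]
    ext i j
    exact z2_c.symm
  have hZ1 : (B n * M) * B n = 0 := by
    rw [mul_assoc, ← h1, ← mul_assoc]
    exact e2
  have hZ2 : B n * (B n * M) = B n * M := by
    have : B n * (B n * M) + B n * M = 0 := by
      rw [← e2]; noncomm_ring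
    ext i j
    exact z2_b (congrFun (congrFun this i) j)
  have hY := rank_one hn1 (M * B n) hY1 hY2
  have hZ := rank_one hn1 (B n * M).transpose (by
    have := congrArg Matrix.transpose hZ1
    rw [Matrix.transpose_mul, B_symm, Matrix.transpose_zero] at this
    exact this) (by
    have := congrArg Matrix.transpose hZ2
    rw [Matrix.transpose_mul, B_symm] at this
    exact this)
  refine ⟨(M * B n) ⟨0, hn1⟩ ⟨0, hn1⟩, (B n * M) ⟨0, hn1⟩ ⟨0, hn1⟩, ?_⟩
  funext c
  obtain ⟨i, j⟩ := c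
  have h5 : X (i, j) = (M * B n) i j + (B n * M) i j := by
    have : (B n * M) i j = (M * B n) i j + M i j := congrFun (congrFun hBM i) j
    rw [this, add_comm, add_comm ((M * B n) i j), z2_c]
    rfl
  have h6 : (B n * M) i j = (B n * M).transpose j i := rfl
  rw [h5, hY i j, h6, hZ j i]
  simp only [Pi.add_apply, Pi.smul_apply, smul_eq_mul, E1, E2, Matrix.transpose_apply]
  by_cases h7 : (i : ℕ) % 2 = 0 ∧ (j : ℕ) % 3 ≠ 2
  · by_cases h8 : (j : ℕ) % 2 = 0 ∧ (i : ℕ) % 3 ≠ 2
    · rw [if_pos h7, if_pos h8, if_pos h7, if_pos h8.symm, mul_one, mul_one]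
    · rw [if_pos h7, if_neg h8, if_pos h7, if_neg (fun h => h8 h.symm), mul_one, mul_zero]
  · by_cases h8 : (j : ℕ) % 2 = 0 ∧ (i : ℕ) % 3 ≠ 2
    · rw [if_neg h7, if_pos h8, if_neg h7, if_pos h8.symm, mul_one, mul_zero]
    · rw [if_neg h7, if_neg h8, if_neg h7, if_neg (fun h => h8 h.symm), mul_zero, mul_zero]

def e0 (n : ℕ) : Fin n → ZMod 2 := fun i => if (i : ℕ) % 2 = 0 then 1 else 0

def e1 (n : ℕ) : Fin n → ZMod 2 := fun i => if (i : ℕ) % 3 ≠ 2 then 1 else 0

/-- `e0` lies in the kernel of `B` and `e1` in the kernel of `B + 1` -/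
lemma B_e0 {n : ℕ} (hn : (n + 1) % 2 = 0) : (B n).mulVec (e0 n) = 0 := by
  ext i
  rw [B_mulVec]
  have key : ∀ m, m ≤ n + 1 → ext (e0 n) m = if m % 2 = 1 then 1 else 0 := by
    intro m hm
    by_cases h1 : 1 ≤ m ∧ m ≤ n
    · rw [ext, dif_pos h1, e0]
      simp only
      congr 1
      apply propext
      omega
    · rw [ext, dif_neg h1, if_neg (by omega)]
  have hi := i.isLt
  rw [key _ (by omega), key _ (by omega)]
  have : ((i : ℕ) + 2) % 2 = (i : ℕ) % 2 := by omega
  rw [this, z2_add_self]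
  rfl

lemma B_e1 {n : ℕ} (hn : (n + 1) % 3 = 0) : (B n).mulVec (e1 n) = e1 n := by
  ext i
  rw [B_mulVec]
  have key : ∀ m, m ≤ n + 1 → ext (e1 n) m = if m % 3 = 0 then 0 else 1 := by
    intro m hm
    by_cases h1 : 1 ≤ m ∧ m ≤ n
    · rw [ext, dif_pos h1, e1]
      simp only
      by_cases h2 : m % 3 = 0
      · rw [if_pos h2, if_neg (by omega)]
      · rw [if_neg h2, if_pos (by omega)]
    · rw [ext, dif_neg h1, if_pos (by omega)]
  have hi := i.isLt
  rw [key _ (by omega), key _ (by omega)]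
  have h3 : (i : ℕ) % 3 = 0 ∨ (i : ℕ) % 3 = 1 ∨ (i : ℕ) % 3 = 2 := by omega
  rw [e1]
  rcases h3 with h3 | h3 | h3
  · rw [if_pos h3, if_neg (by omega), if_pos (by omega)]; rfl
  · rw [if_neg (by omega), if_pos (by omega), if_pos (by omega)]; rfl
  · rw [if_neg (by omega), if_neg (by omega), if_neg (by omega)]; rfl

lemma E1_ker {n : ℕ} (h2 : (n + 1) % 2 = 0) (h3 : (n + 1) % 3 = 0) :
    (A n).mulVec (E1 n) = 0 := by
  ext c
  obtain ⟨i, j⟩ := c
  rw [A_mulVec]
  have g1 : (B n * Matrix.of fun a b => E1 n (a, b)) i j = 0 := by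
    have := congrFun (mulVec_of_mul (Matrix.of fun a b => E1 n (a, b)) j) i
    rw [← this]
    have h0 := congrFun (B_e0 h2) i
    by_cases hj : (j : ℕ) % 3 = 2
    · have : (fun i => (Matrix.of fun a b => E1 n (a, b)) i j) = 0 := by
        ext i
        simp [E1, hj]
      rw [this, Matrix.mulVec_zero]; rfl
    · have : (fun i => (Matrix.of fun a b => E1 n (a, b)) i j) = e0 n := by
        ext i
        simp [E1, e0, hj]
      rw [this, h0]; rfl
  have g2 : ((Matrix.of fun a b => E1 n (a, b)) * B n) i j = E1 n (i, j) := by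
    have := congrFun (mulVec_of_mul' (Matrix.of fun a b => E1 n (a, b)) i) j
    rw [← this]
    by_cases hi : (i : ℕ) % 2 = 0
    · have : (fun j => (Matrix.of fun a b => E1 n (a, b)) i j) = e1 n := by
        ext j
        simp [E1, e1, hi]
      rw [this, B_e1 h3]
      simp [E1, e1, hi]
    · have : (fun j => (Matrix.of fun a b => E1 n (a, b)) i j) = 0 := by
        ext j
        simp [E1, hi]
      rw [this, Matrix.mulVec_zero]
      simp [E1, hi]
  rw [g1, g2, add_zero, z2_add_self]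
  rfl

lemma E2_ker {n : ℕ} (h2 : (n + 1) % 2 = 0) (h3 : (n + 1) % 3 = 0) :
    (A n).mulVec (E2 n) = 0 := by
  ext c
  obtain ⟨i, j⟩ := c
  rw [A_mulVec]
  have g1 : (B n * Matrix.of fun a b => E2 n (a, b)) i j = E2 n (i, j) := by
    have := congrFun (mulVec_of_mul (Matrix.of fun a b => E2 n (a, b)) j) i
    rw [← this]
    by_cases hj : (j : ℕ) % 2 = 0
    · have : (fun i => (Matrix.of fun a b => E2 n (a, b)) i j) = e1 n := by
        ext i
        simp [E2, e1, hj]
      rw [this, B_e1 h3]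
      simp [E2, e1, hj]
    · have : (fun i => (Matrix.of fun a b => E2 n (a, b)) i j) = 0 := by
        ext i
        simp [E2, hj]
      rw [this, Matrix.mulVec_zero]
      simp [E2, hj]
  have g2 : ((Matrix.of fun a b => E2 n (a, b)) * B n) i j = 0 := by
    have := congrFun (mulVec_of_mul' (Matrix.of fun a b => E2 n (a, b)) i) j
    rw [← this]
    have h0 := congrFun (B_e0 h2) j
    by_cases hi : (i : ℕ) % 3 = 2
    · have : (fun j => (Matrix.of fun a b => E2 n (a, b)) i j) = 0 := by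
        ext j
        simp [E2, hi]
      rw [this, Matrix.mulVec_zero]; rfl
    · have : (fun j => (Matrix.of fun a b => E2 n (a, b)) i j) = e0 n := by
        ext j
        simp [E2, e0, hi]
      rw [this, h0]; rfl
  rw [g1, g2, add_zero, z2_add_self]
  rfl

theorem d_eq_two (k n : ℕ) (hn : n + 1 = 2 * 3 ^ (k + 1)) : d n = 2 := by
  have h3k : 3 ^ (k + 1) = 3 * 3 ^ k := pow_succ' 3 k
  have h1k : 1 ≤ 3 ^ k := Nat.one_le_pow _ _ (by norm_num)
  have h2 : (n + 1) % 2 = 0 := by omega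
  have h3 : (n + 1) % 3 = 0 := by omega
  have hn2 : 2 ≤ n := by omega
  have hli : LinearIndependent (ZMod 2) ![E1 n, E2 n] := by
    rw [LinearIndependent.pair_iff]
    intro s t hst
    have a1 := congrFun hst (⟨0, by omega⟩, ⟨0, by omega⟩)
    have a2 := congrFun hst (⟨0, by omega⟩, ⟨1, by omega⟩)
    simp [E1, E2] at a1 a2
    rw [a2] at a1
    rw [zero_add] at a1
    exact ⟨a2, a1⟩
  have hker : kerA n =
      Submodule.span (ZMod 2) (Set.range ![E1 n, E2 n]) := by
    apply le_antisymm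
    · intro X hX
      rw [kerA, LinearMap.mem_ker, Matrix.mulVecLin_apply] at hX
      obtain ⟨a, b, rfl⟩ := ker_eq k n hn X hX
      apply Submodule.add_mem
      · exact Submodule.smul_mem _ _ (Submodule.subset_span ⟨0, rfl⟩)
      · exact Submodule.smul_mem _ _ (Submodule.subset_span ⟨1, rfl⟩)
    · rw [Submodule.span_le]
      rintro _ ⟨i, rfl⟩
      rw [SetLike.mem_coe, kerA, LinearMap.mem_ker, Matrix.mulVecLin_apply]
      fin_cases i
      · exact E1_ker h2 h3
      · exact E2_ker h2 h3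
  rw [d, hker, finrank_span_eq_card hli]
  rfl

/-- There are infinitely many `n` with `d(n) = 2`; indeed `d(2 * 3 ^ k - 1) = 2` for all
`k ≥ 1`. -/
theorem result : (∀ k : ℕ, 1 ≤ k → d (2 * 3 ^ k - 1) = 2) ∧
    {n : ℕ | 0 < n ∧ d n = 2}.Infinite := by
  have h1 : ∀ k : ℕ, 1 ≤ k → d (2 * 3 ^ k - 1) = 2 := by
    intro k hk
    obtain ⟨m, rfl⟩ : ∃ m, k = m + 1 := ⟨k - 1, by omega⟩
    have : 1 ≤ 3 ^ (m + 1) := Nat.one_le_pow _ _ (by norm_num)
    exact d_eq_two m _ (by omega)
  refine ⟨h1, ?_⟩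
  apply Set.infinite_of_not_bddAbove
  rintro ⟨N, hN⟩
  have h2 : N + 1 < 3 ^ (N + 1) := Nat.lt_pow_self (by norm_num)
  have h3 : 2 * 3 ^ (N + 1) - 1 ∈ {n : ℕ | 0 < n ∧ d n = 2} := ⟨by omega, h1 _ (by omega)⟩
  have h4 := hN h3
  omega

end Pool.Agent.Results.MP_222d4b_co.InfinitelyMany
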